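import Mathlib

set_option autoImplicit false

namespace Pool.Agent.Helper58.Amalg

open Cardinal

universe u v

/-- The universal property of an amalgamated product, tested on actions. -/
structure IsAmalg {A B H P : Type u} [Group A] [Group B] [Group H] [Group P] (φA : H →* A)
    (φB : H →* B) (ιA : A →* P) (ιB : B →* P) : Prop where
  gen : ιA.range ⊔ ιB.range = ⊤
  comm : ∀ h, ιA (φA h) = ιB (φB h)
  univ : ∀ (X : Type u) (f : A →* Equiv.Perm X) (g : B →* Equiv.Perm X),
    (∀ h, f (φA h) = g (φB h)) →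
      ∃ F : P →* Equiv.Perm X, (∀ a, F (ιA a) = f a) ∧ (∀ b, F (ιB b) = g b)

theorem IsAmalg.symm {A B H P : Type u} [Group A] [Group B] [Group H] [Group P] {φA : H →* A}
    {φB : H →* B} {ιA : A →* P} {ιB : B →* P} (h : IsAmalg φA φB ιA ιB) :
    IsAmalg φB φA ιB ιA where
  gen := by rw [sup_comm]; exact h.gen
  comm x := (h.comm x).symm
  univ X f g hfg := by
    obtain ⟨F, h1, h2⟩ := h.univ X g f (fun x => (hfg x).symm)
    exact ⟨F, h2, h1⟩

/-- A proper subgroup which together with one element generates the group gives a maximal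
subgroup. -/
theorem exists_coatom {P : Type u} [Group P] (K : Subgroup P) (g : P) (hg : g ∉ K)
    (h : ∀ L : Subgroup P, K ≤ L → g ∈ L → L = ⊤) : ∃ M : Subgroup P, IsCoatom M := by
  obtain ⟨M, hKM, hM⟩ := zorn_le_nonempty₀ {L : Subgroup P | g ∉ L} (by
    intro c hc hchain L hL
    refine ⟨sSup c, ?_, fun z hz => le_sSup hz⟩
    intro hmem
    rw [Subgroup.mem_sSup_of_directedOn ⟨L, hL⟩ hchain.directedOn] at hmem
    obtain ⟨N, hN, hgN⟩ := hmem
    exact hc hN hgN) K hg
  refine ⟨M, ?_, ?_⟩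
  · intro hM1
    have := hM.1
    rw [hM1] at this
    exact this (Subgroup.mem_top g)
  · intro N hMN
    apply h N (hKM.trans hMN.le)
    by_contra hgN
    exact absurd (hM.2 hgN hMN.le) (not_le_of_gt hMN)

theorem exists_coatom_finset {P : Type u} [Group P] (F : Finset P) :
    ∀ K : Subgroup P, K ≠ ⊤ → K ⊔ Subgroup.closure (F : Set P) = ⊤ →
      ∃ M : Subgroup P, IsCoatom M := by
  classical
  induction F using Finset.induction_on with
  | empty =>
    intro K hK h
    rw [Finset.coe_empty, Subgroup.closure_empty, sup_bot_eq] at h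
    exact absurd h hK
  | insert f F _ ih =>
    intro K hK h
    by_cases h1 : K ⊔ Subgroup.closure {f} = ⊤
    · refine exists_coatom K f ?_ ?_
      · intro hf
        apply hK
        rw [← h1, left_eq_sup, Subgroup.closure_le]
        simpa using hf
      · intro L hKL hfL
        rw [eq_top_iff, ← h1]
        apply sup_le hKL
        rw [Subgroup.closure_le]
        simpa using hfL
    · apply ih _ h1
      rw [sup_assoc, ← Subgroup.closure_union]
      rw [Finset.coe_insert] at h
      exact h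

/-- orbit relation -/
def orb {H : Type u} {X : Type v} [Group H] (ρ : H →* Equiv.Perm X) : Setoid X where
  r x y := ∃ h, ρ h x = y
  iseqv := by
    refine ⟨fun x => ⟨1, by simp⟩, ?_, ?_⟩
    · rintro x y ⟨h, rfl⟩
      exact ⟨h⁻¹, by rw [← Equiv.Perm.mul_apply, ← map_mul, inv_mul_cancel, map_one,
        Equiv.Perm.one_apply]⟩
    · rintro x y z ⟨h, rfl⟩ ⟨h', rfl⟩
      exact ⟨h' * h, by rw [map_mul, Equiv.Perm.mul_apply]⟩

theorem orb_eq {H : Type u} {X : Type v} [Group H] (ρ : H →* Equiv.Perm X) {x y : X} : (Quotient.mk (orb ρ) x = Quotient.mk (orb ρ) y) ↔ ∃ h, ρ h x = y :=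
  Quotient.eq

section Basis

variable {H X Y : Type u} [Group H] (ρ : H →* Equiv.Perm X) (σ : H →* Equiv.Perm Y)

theorem basis_bij (hfree : ∀ h x, ρ h x = x → h = 1) {E : Type v} (r : E → X)
    (h1 : ∀ e e' h, ρ h (r e) = r e' → e = e') (h2 : ∀ x, ∃ e h, ρ h (r e) = x) :
    Function.Bijective (fun p : H × E => ρ p.1 (r p.2)) := by
  constructor
  · rintro ⟨h, e⟩ ⟨h', e'⟩ heq
    simp only at heq
    have h3 : ρ (h'⁻¹ * h) (r e) = r e' := by
      rw [map_mul, Equiv.Perm.mul_apply, heq, ← Equiv.Perm.mul_apply, ← map_mul, inv_mul_cancel,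
        map_one, Equiv.Perm.one_apply]
    have h4 : e = e' := h1 e e' _ h3
    subst h4
    have h5 := hfree _ _ h3
    rw [inv_mul_eq_one] at h5
    rw [h5]
  · intro x
    obtain ⟨e, h, he⟩ := h2 x
    exact ⟨(h, e), he⟩

theorem equiv_of_basis {E : Type v} (r : E → X) (r' : E → Y)
    (hr : Function.Bijective (fun p : H × E => ρ p.1 (r p.2)))
    (hr' : Function.Bijective (fun p : H × E => σ p.1 (r' p.2))) :
    ∃ θ : X ≃ Y, (∀ h x, θ (ρ h x) = σ h (θ x)) ∧ ∀ e, θ (r e) = r' e := by
  let F := Equiv.ofBijective _ hr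
  let F' := Equiv.ofBijective _ hr'
  have hF : ∀ p, F p = ρ p.1 (r p.2) := fun p => rfl
  have hF' : ∀ p, F' p = σ p.1 (r' p.2) := fun p => rfl
  refine ⟨F.symm.trans F', ?_, ?_⟩
  · intro h x
    obtain ⟨⟨k, e⟩, rfl⟩ := F.surjective x
    have h1 : ρ h (F (k, e)) = F (h * k, e) := by
      rw [hF, hF, map_mul, Equiv.Perm.mul_apply]
    rw [h1, Equiv.trans_apply, Equiv.trans_apply, Equiv.symm_apply_apply,
      Equiv.symm_apply_apply, hF', hF', map_mul, Equiv.Perm.mul_apply]
  · intro e
    have h1 : r e = F (1, e) := by rw [hF, map_one, Equiv.Perm.one_apply]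
    rw [h1, Equiv.trans_apply, Equiv.symm_apply_apply, hF', map_one, Equiv.Perm.one_apply]

/-- Extension of a matching of points in distinct orbits to an equivariant bijection. -/
theorem exists_equiv_extend {D : Type v} (hρ : ∀ h x, ρ h x = x → h = 1)
    (hσ : ∀ h y, σ h y = y → h = 1) (s : D → X) (t : D → Y)
    (hs : ∀ d d' h, ρ h (s d) = s d' → d = d') (ht : ∀ d d' h, σ h (t d) = t d' → d = d')
    (e : {q : Quotient (orb ρ) // ∀ d, q ≠ Quotient.mk (orb ρ) (s d)} ≃
      {q : Quotient (orb σ) // ∀ d, q ≠ Quotient.mk (orb σ) (t d)}) :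
    ∃ θ : X ≃ Y, (∀ h x, θ (ρ h x) = σ h (θ x)) ∧ ∀ d, θ (s d) = t d := by
  let E := D ⊕ {q : Quotient (orb ρ) // ∀ d, q ≠ Quotient.mk (orb ρ) (s d)}
  let r : E → X := Sum.elim s (fun q => q.1.out)
  let r' : E → Y := Sum.elim t (fun q => (e q).1.out)
  have hr : Function.Bijective (fun p : H × E => ρ p.1 (r p.2)) := by
    apply basis_bij ρ hρ
    · rintro (d | q) (d' | q') h heq
      · exact congrArg Sum.inl (hs d d' h heq)
      · exfalso
        change ρ h (s d) = q'.1.out at heq
        apply q'.2 d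
        rw [← Quotient.out_eq q'.1, eq_comm, orb_eq]
        exact ⟨h, heq⟩
      · exfalso
        change ρ h q.1.out = s d' at heq
        apply q.2 d'
        rw [← Quotient.out_eq q.1, orb_eq]
        exact ⟨h, heq⟩
      · change ρ h q.1.out = q'.1.out at heq
        congr 1
        apply Subtype.ext
        rw [← Quotient.out_eq q.1, ← Quotient.out_eq q'.1, orb_eq]
        exact ⟨h, heq⟩
    · intro x
      by_cases hx : ∃ d, Quotient.mk (orb ρ) x = Quotient.mk (orb ρ) (s d)
      · obtain ⟨d, hd⟩ := hx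
        rw [eq_comm, orb_eq] at hd
        obtain ⟨h, hh⟩ := hd
        exact ⟨Sum.inl d, h, hh⟩
      · push Not at hx
        have h3 := Quotient.out_eq (Quotient.mk (orb ρ) x)
        rw [orb_eq] at h3
        obtain ⟨h, hh⟩ := h3
        exact ⟨Sum.inr ⟨Quotient.mk (orb ρ) x, hx⟩, h, hh⟩
  have hr' : Function.Bijective (fun p : H × E => σ p.1 (r' p.2)) := by
    apply basis_bij σ hσ
    · rintro (d | q) (d' | q') h heq
      · exact congrArg Sum.inl (ht d d' h heq)
      · exfalso
        change σ h (t d) = (e q').1.out at heq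
        apply (e q').2 d
        rw [← Quotient.out_eq (e q').1, eq_comm, orb_eq]
        exact ⟨h, heq⟩
      · exfalso
        change σ h (e q).1.out = t d' at heq
        apply (e q).2 d'
        rw [← Quotient.out_eq (e q).1, orb_eq]
        exact ⟨h, heq⟩
      · change σ h (e q).1.out = (e q').1.out at heq
        congr 1
        apply e.injective
        apply Subtype.ext
        rw [← Quotient.out_eq (e q).1, ← Quotient.out_eq (e q').1, orb_eq]
        exact ⟨h, heq⟩
    · intro y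
      by_cases hy : ∃ d, Quotient.mk (orb σ) y = Quotient.mk (orb σ) (t d)
      · obtain ⟨d, hd⟩ := hy
        rw [eq_comm, orb_eq] at hd
        obtain ⟨h, hh⟩ := hd
        exact ⟨Sum.inl d, h, hh⟩
      · push Not at hy
        have h3 := Quotient.out_eq (Quotient.mk (orb σ) y)
        rw [orb_eq] at h3
        obtain ⟨h, hh⟩ := h3
        refine ⟨Sum.inr (e.symm ⟨Quotient.mk (orb σ) y, hy⟩), h, ?_⟩
        change σ h (e (e.symm ⟨Quotient.mk (orb σ) y, hy⟩)).1.out = y
        rw [Equiv.apply_symm_apply]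
        exact hh
  obtain ⟨θ, h1, h2⟩ := equiv_of_basis ρ σ r r' hr hr'
  exact ⟨θ, h1, fun d => h2 (Sum.inl d)⟩

/-- Matching of two free actions with equivariant labels, after multiplication by a large set. -/
theorem exists_label_equiv {Λ : Type v} (τ : H →* Equiv.Perm Λ) (hρ : ∀ h x, ρ h x = x → h = 1)
    (hσ : ∀ h y, σ h y = y → h = 1) (lX : X → Λ) (lY : Y → Λ)
    (hlX : ∀ h x, lX (ρ h x) = τ h (lX x)) (hlY : ∀ h y, lY (σ h y) = τ h (lY y))
    (hrange : ∀ l, (∃ x, lX x = l) ↔ ∃ y, lY y = l) :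
    ∃ (W : Type u) (_ : Nonempty W) (θ : X × W ≃ Y × W),
      (∀ h x w, θ (ρ h x, w) = (σ h (θ (x, w)).1, (θ (x, w)).2)) ∧
        ∀ p, lY (θ p).1 = lX p.1 := by
  classical
  let W : Type u := ULift.{u} ℕ × (X ⊕ Y ⊕ PUnit.{u + 1})
  have hW0 : ℵ₀ ≤ #W := by
    rw [← Cardinal.infinite_iff]
    infer_instance
  have hWX : #X ≤ #W := Cardinal.mk_le_of_injective
    (f := fun x : X => ((⟨0⟩, Sum.inl x) : W)) (by
      intro x y h
      exact Sum.inl_injective (congrArg Prod.snd h))
  have hWY : #Y ≤ #W := Cardinal.mk_le_of_injective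
    (f := fun y : Y => ((⟨0⟩, Sum.inr (Sum.inl y)) : W)) (by
      intro x y h
      exact Sum.inl_injective (Sum.inr_injective (congrArg Prod.snd h)))
  let QX := Quotient (orb ρ)
  let QY := Quotient (orb σ)
  let QL := Quotient (orb τ)
  let mX : QX → QL := Quotient.map lX (by
    rintro x y ⟨h, rfl⟩
    exact ⟨h, (hlX h x).symm⟩)
  let mY : QY → QL := Quotient.map lY (by
    rintro x y ⟨h, rfl⟩
    exact ⟨h, (hlY h x).symm⟩)
  have hmX : ∀ x, mX (Quotient.mk _ x) = Quotient.mk _ (lX x) := fun x => rfl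
  have hmY : ∀ x, mY (Quotient.mk _ x) = Quotient.mk _ (lY x) := fun x => rfl
  have hrX : ∀ q : QX, ∃ x, Quotient.mk (orb ρ) x = q ∧ lX x = (mX q).out := by
    intro q
    induction q using Quotient.inductionOn with
    | h x =>
      rw [hmX]
      have h3 := Quotient.out_eq (Quotient.mk (orb τ) (lX x))
      rw [eq_comm, orb_eq] at h3
      obtain ⟨h, hh⟩ := h3
      refine ⟨ρ h x, ?_, by rw [hlX, hh]⟩
      rw [eq_comm, orb_eq]
      exact ⟨h, rfl⟩
  have hrY : ∀ q : QY, ∃ x, Quotient.mk (orb σ) x = q ∧ lY x = (mY q).out := by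
    intro q
    induction q using Quotient.inductionOn with
    | h x =>
      rw [hmY]
      have h3 := Quotient.out_eq (Quotient.mk (orb τ) (lY x))
      rw [eq_comm, orb_eq] at h3
      obtain ⟨h, hh⟩ := h3
      refine ⟨σ h x, ?_, by rw [hlY, hh]⟩
      rw [eq_comm, orb_eq]
      exact ⟨h, rfl⟩
  choose oX hoX hoX' using hrX
  choose oY hoY hoY' using hrY
  have hfib : ∀ l : QL, Nonempty ({p : QX × W // mX p.1 = l} ≃ {p : QY × W // mY p.1 = l}) := by
    intro l
    have e1 : {p : QX × W // mX p.1 = l} ≃ {q : QX // mX q = l} × W :=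
      { toFun := fun p => (⟨p.1.1, p.2⟩, p.1.2)
        invFun := fun p => ⟨(p.1.1, p.2), p.1.2⟩
        left_inv := fun p => rfl
        right_inv := fun p => rfl }
    have e2 : {p : QY × W // mY p.1 = l} ≃ {q : QY // mY q = l} × W :=
      { toFun := fun p => (⟨p.1.1, p.2⟩, p.1.2)
        invFun := fun p => ⟨(p.1.1, p.2), p.1.2⟩
        left_inv := fun p => rfl
        right_inv := fun p => rfl }
    by_cases hl : ∃ q, mX q = l
    · obtain ⟨q, hq⟩ := hl
      obtain ⟨y, hy⟩ := (hrange _).1 ⟨oX q, rfl⟩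
      have hy' : mY (Quotient.mk _ y) = l := by
        rw [hmY, hy, hoX', Quotient.out_eq, hq]
      have c1 : #({q : QX // mX q = l} × W) = #W := by
        rw [Cardinal.mk_prod, Cardinal.lift_id, Cardinal.lift_id]
        apply Cardinal.mul_eq_right hW0
        · exact ((Cardinal.mk_subtype_le _).trans Cardinal.mk_quotient_le).trans hWX
        · rw [Cardinal.mk_ne_zero_iff]
          exact ⟨⟨q, hq⟩⟩
      have c2 : #({q : QY // mY q = l} × W) = #W := by
        rw [Cardinal.mk_prod, Cardinal.lift_id, Cardinal.lift_id]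
        apply Cardinal.mul_eq_right hW0
        · exact ((Cardinal.mk_subtype_le _).trans Cardinal.mk_quotient_le).trans hWY
        · rw [Cardinal.mk_ne_zero_iff]
          exact ⟨⟨Quotient.mk _ y, hy'⟩⟩
      obtain ⟨e3⟩ := Cardinal.eq.1 (c1.trans c2.symm)
      exact ⟨e1.trans (e3.trans e2.symm)⟩
    · have i1 : IsEmpty {p : QX × W // mX p.1 = l} := ⟨fun p => hl ⟨p.1.1, p.2⟩⟩
      have i2 : IsEmpty {p : QY × W // mY p.1 = l} := by
        refine ⟨?_⟩
        rintro ⟨⟨q, w⟩, hp⟩
        simp only at hp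
        apply hl
        obtain ⟨x, hx⟩ := (hrange _).2 ⟨oY q, rfl⟩
        exact ⟨Quotient.mk _ x, by rw [hmX, hx, hoY', Quotient.out_eq, hp]⟩
      exact ⟨Equiv.equivOfIsEmpty _ _⟩
  let e : QX × W ≃ QY × W := Equiv.ofFiberEquiv (fun l => (hfib l).some)
  have he : ∀ p, mY (e p).1 = mX p.1 := fun p =>
    Equiv.ofFiberEquiv_map (f := fun p : QX × W => mX p.1) (g := fun p : QY × W => mY p.1)
      (fun l => (hfib l).some) p
  let ρ' : H →* Equiv.Perm (X × W) :=
    { toFun := fun h => Equiv.prodCongr (ρ h) (Equiv.refl W)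
      map_one' := by ext p <;> simp
      map_mul' := by intro a b; ext p <;> simp }
  let σ' : H →* Equiv.Perm (Y × W) :=
    { toFun := fun h => Equiv.prodCongr (σ h) (Equiv.refl W)
      map_one' := by ext p <;> simp
      map_mul' := by intro a b; ext p <;> simp }
  have hρ' : ∀ h p, ρ' h p = (ρ h p.1, p.2) := fun h p => rfl
  have hσ' : ∀ h p, σ' h p = (σ h p.1, p.2) := fun h p => rfl
  let rX : QX × W → X × W := fun q => (oX q.1, q.2)
  let rY : QX × W → Y × W := fun q => (oY (e q).1, (e q).2)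
  have hb1 : Function.Bijective (fun p : H × (QX × W) => ρ' p.1 (rX p.2)) := by
    refine basis_bij ρ' ?_ rX ?_ ?_
    · rintro h ⟨x, w⟩ hx
      exact hρ h x (congrArg Prod.fst hx)
    · rintro ⟨q, w⟩ ⟨q', w'⟩ h heq
      rw [hρ'] at heq
      have h1 : ρ h (oX q) = oX q' := congrArg Prod.fst heq
      have h2 : w = w' := congrArg Prod.snd heq
      rw [h2]
      congr 1
      rw [← hoX q, ← hoX q', orb_eq]
      exact ⟨h, h1⟩
    · rintro ⟨x, w⟩
      have h3 := hoX (Quotient.mk (orb ρ) x)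
      rw [orb_eq] at h3
      obtain ⟨h, hh⟩ := h3
      exact ⟨(Quotient.mk (orb ρ) x, w), h, Prod.ext hh rfl⟩
  have hb2 : Function.Bijective (fun p : H × (QX × W) => σ' p.1 (rY p.2)) := by
    refine basis_bij σ' ?_ rY ?_ ?_
    · rintro h ⟨x, w⟩ hx
      exact hσ h x (congrArg Prod.fst hx)
    · rintro q q' h heq
      rw [hσ'] at heq
      have h1 : σ h (oY (e q).1) = oY (e q').1 := congrArg Prod.fst heq
      have h2 := congrArg Prod.snd heq
      change (e q).2 = (e q').2 at h2
      apply e.injective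
      apply Prod.ext
      · rw [← hoY (e q).1, ← hoY (e q').1, orb_eq]
        exact ⟨h, h1⟩
      · exact h2
    · rintro ⟨y, w⟩
      have h3 := hoY (Quotient.mk (orb σ) y)
      rw [orb_eq] at h3
      obtain ⟨h, hh⟩ := h3
      refine ⟨e.symm (Quotient.mk (orb σ) y, w), h, ?_⟩
      have h5 : rY (e.symm (Quotient.mk (orb σ) y, w)) = (oY (Quotient.mk (orb σ) y), w) := by
        simp only [rY, Equiv.apply_symm_apply]
      rw [hσ', h5]
      exact Prod.ext hh rfl
  obtain ⟨θ, h1, h2⟩ := equiv_of_basis ρ' σ' rX rY hb1 hb2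
  refine ⟨W, ⟨(⟨0⟩, Sum.inr (Sum.inr PUnit.unit))⟩, θ, ?_, ?_⟩
  · intro h x w
    exact h1 h (x, w)
  · intro p
    obtain ⟨⟨h, q⟩, rfl⟩ := hb1.surjective p
    simp only
    rw [h1, h2, hσ', hρ']
    simp only
    rw [hlY, hlX]
    congr 1
    change lY (oY (e q).1) = lX (oX q.1)
    rw [hoY', hoX', he q]

end Basis

end Pool.Agent.Helper58.Amalg
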