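import Mathlib
import Pool.Agent.Helper58.Amalg.Basic

set_option autoImplicit false

namespace Pool.Agent.Helper58.Amalg

open Cardinal

universe u v

variable {A B H P : Type u} [Group A] [Group B] [Group H] [Group P] {φA : H →* A} {φB : H →* B}
  {ιA : A →* P} {ιB : B →* P}

/-- left multiplication on a union of copies of the regular action -/
def lm (A I : Type u) [Group A] : A →* Equiv.Perm (A × I) where
  toFun a := Equiv.prodCongr (Equiv.mulLeft a) (Equiv.refl I)
  map_one' := by ext p <;> simp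
  map_mul' a b := by ext p <;> simp [mul_assoc]

@[simp] theorem lm_apply {I : Type u} (a : A) (p : A × I) : lm A I a p = (a * p.1, p.2) := rfl

theorem lm_free (hA : Function.Injective φA) {I : Type u} (h : H) (x : A × I)
    (hx : ((lm A I).comp φA) h x = x) : h = 1 := by
  have h1 : φA h * x.1 = x.1 := congrArg Prod.fst hx
  rw [_root_.mul_eq_right] at h1
  exact hA (h1.trans (map_one φA).symm)

/-- Gluing of a free action of `A` and a free action of `B` along equivariant labels. -/
theorem glue (hP : IsAmalg φA φB ιA ιB) (hA : Function.Injective φA) (hB : Function.Injective φB)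
    {I J : Type u} {Λ : Type v} (τ : H →* Equiv.Perm Λ) (lX : A × I → Λ) (lY : B × J → Λ)
    (hlX : ∀ h a i, lX (φA h * a, i) = τ h (lX (a, i)))
    (hlY : ∀ h b j, lY (φB h * b, j) = τ h (lY (b, j)))
    (hrange : ∀ l, (∃ x, lX x = l) ↔ ∃ y, lY y = l) :
    ∃ (W : Type u) (_ : Nonempty W) (θ : (A × I) × W ≃ (B × J) × W)
      (F : P →* Equiv.Perm ((A × I) × W)),
      (∀ a x i w, F (ιA a) ((x, i), w) = ((a * x, i), w)) ∧
      (∀ b p, θ (F (ιB b) p) = ((b * (θ p).1.1, (θ p).1.2), (θ p).2)) ∧
      (∀ p, lY (θ p).1 = lX p.1) := by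
  obtain ⟨W, hW, θ, h1, h2⟩ := exists_label_equiv ((lm A I).comp φA) ((lm B J).comp φB) τ
    (fun h x hx => lm_free hA h x hx) (fun h x hx => lm_free hB h x hx) lX lY
    (fun h x => hlX h x.1 x.2) (fun h y => hlY h y.1 y.2) hrange
  let f : A →* Equiv.Perm ((A × I) × W) :=
    { toFun := fun a => Equiv.prodCongr (lm A I a) (Equiv.refl W)
      map_one' := by ext p <;> simp
      map_mul' := by intro a b; ext p <;> simp }
  let g0 : B →* Equiv.Perm ((B × J) × W) :=
    { toFun := fun a => Equiv.prodCongr (lm B J a) (Equiv.refl W)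
      map_one' := by ext p <;> simp
      map_mul' := by intro a b; ext p <;> simp }
  let g : B →* Equiv.Perm ((A × I) × W) := (θ.symm.permCongrHom.toMonoidHom).comp g0
  have hg : ∀ b p, θ (g b p) = ((b * (θ p).1.1, (θ p).1.2), (θ p).2) := by
    intro b p
    change θ (θ.symm (g0 b (θ.symm.symm p))) = _
    rw [Equiv.apply_symm_apply, Equiv.symm_symm]
    rfl
  obtain ⟨F, hF1, hF2⟩ := hP.univ _ f g (by
    intro h
    apply Equiv.ext
    rintro ⟨x, w⟩
    apply θ.injective
    rw [hg]
    exact h1 h x w)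
  refine ⟨W, hW, θ, F, ?_, ?_, h2⟩
  · intro a x i w
    rw [hF1]
    rfl
  · intro b p
    rw [hF2, hg]

/-- stabiliser of a labelling -/
def labStab {X : Type u} {Λ : Type v} (F : P →* Equiv.Perm X) (L : X → Λ) : Subgroup P where
  carrier := {p | ∀ x, L (F p x) = L x}
  one_mem' := by intro x; simp
  mul_mem' := by
    intro p q hp hq x
    rw [map_mul, Equiv.Perm.mul_apply, hp, hq]
  inv_mem' := by
    intro p hp x
    have h1 := hp (F p⁻¹ x)
    rw [← Equiv.Perm.mul_apply, ← map_mul, mul_inv_cancel, map_one, Equiv.Perm.one_apply] at h1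
    exact h1.symm

theorem mem_labStab {X : Type u} {Λ : Type v} {F : P →* Equiv.Perm X} {L : X → Λ} {p : P} :
    p ∈ labStab F L ↔ ∀ x, L (F p x) = L x := Iff.rfl

/-- right translation on functions -/
def shift (H : Type u) [Group H] (Λ : Type v) : H →* Equiv.Perm ((H → Bool) × Λ) where
  toFun h :=
    { toFun := fun l => (fun k => l.1 (k * h), l.2)
      invFun := fun l => (fun k => l.1 (k * h⁻¹), l.2)
      left_inv := by intro l; simp
      right_inv := by intro l; simp }
  map_one' := by ext l <;> simp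
  map_mul' a b := by ext l <;> simp [mul_assoc]

@[simp] theorem shift_apply {Λ : Type v} (h : H) (l : (H → Bool) × Λ) :
    shift H Λ h l = (fun k => l.1 (k * h), l.2) := rfl

theorem shift_mem_iff {A' H' : Type u} [Group A'] [Group H'] (φ : H' →* A') (M : Subgroup A')
    {c k : H'} {x : A'} (hc : φ c * x ∈ M) : φ k * x ∈ M ↔ φ (k * c⁻¹) ∈ M := by
  have h1 : φ k * x = φ (k * c⁻¹) * (φ c * x) := by
    rw [map_mul, map_inv]
    group
  rw [h1]
  exact M.mul_mem_cancel_right hc

open Classical in
/-- Subgroups of the factors with the same intersection with the amalgamated subgroup, and over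
which the factors are finitely generated. -/
theorem partII (hP : IsAmalg φA φB ιA ιB) (hA : Function.Injective φA)
    (hB : Function.Injective φB) (M : Subgroup A) (M' : Subgroup B)
    (hMM : ∀ h, φA h ∈ M ↔ φB h ∈ M') (hne : M ≠ ⊤ ∨ M' ≠ ⊤)
    (SA : Finset A) (hSA : M ⊔ Subgroup.closure (SA : Set A) = ⊤)
    (SB : Finset B) (hSB : M' ⊔ Subgroup.closure (SB : Set B) = ⊤) :
    ∃ K : Subgroup P, IsCoatom K := by
  obtain ⟨lX, hX0, hX1⟩ : ∃ lX : A × Option PUnit.{u + 1} → (H → Bool) × Unit,
      (∀ x, lX (x, none) = (fun k => decide (φA k * x ∈ M), ())) ∧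
      (∀ x i, lX (x, some i) = (fun _ => false, ())) :=
    ⟨fun p => match p.2 with
      | none => (fun k => decide (φA k * p.1 ∈ M), ())
      | some _ => (fun _ => false, ()), fun x => rfl, fun x i => rfl⟩
  obtain ⟨lY, hY0, hY1⟩ : ∃ lY : B × Option PUnit.{u + 1} → (H → Bool) × Unit,
      (∀ x, lY (x, none) = (fun k => decide (φB k * x ∈ M'), ())) ∧
      (∀ x i, lY (x, some i) = (fun _ => false, ())) :=
    ⟨fun p => match p.2 with
      | none => (fun k => decide (φB k * p.1 ∈ M'), ())
      | some _ => (fun _ => false, ()), fun x => rfl, fun x i => rfl⟩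
  have hrange : ∀ l, (∃ x, lX x = l) ↔ ∃ y, lY y = l := by
    intro l
    constructor
    · rintro ⟨⟨x, _ | i⟩, rfl⟩
      · by_cases hx : ∃ c, φA c * x ∈ M
        · obtain ⟨c, hc⟩ := hx
          refine ⟨(φB c⁻¹, none), ?_⟩
          rw [hX0, hY0]
          congr 1
          funext k
          rw [decide_eq_decide, shift_mem_iff φA M hc, ← map_mul, hMM]
        · push Not at hx
          refine ⟨(1, some PUnit.unit), ?_⟩
          rw [hX0, hY1]
          congr 1
          funext k
          simp [hx k]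
      · exact ⟨(1, some PUnit.unit), by rw [hX1, hY1]⟩
    · rintro ⟨⟨x, _ | i⟩, rfl⟩
      · by_cases hx : ∃ c, φB c * x ∈ M'
        · obtain ⟨c, hc⟩ := hx
          refine ⟨(φA c⁻¹, none), ?_⟩
          rw [hX0, hY0]
          congr 1
          funext k
          rw [decide_eq_decide, shift_mem_iff φB M' hc, ← map_mul, hMM]
        · push Not at hx
          refine ⟨(1, some PUnit.unit), ?_⟩
          rw [hY0, hX1]
          congr 1
          funext k
          simp [hx k]
      · exact ⟨(1, some PUnit.unit), by rw [hX1, hY1]⟩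
  obtain ⟨W, ⟨w⟩, θ, F, hF1, hF2, hθ⟩ := glue hP hA hB (shift H Unit) lX lY
    (by
      rintro h a (_ | i)
      · rw [hX0, hX0, shift_apply]
        simp only [map_mul, mul_assoc]
      · rw [hX1, hX1, shift_apply])
    (by
      rintro h a (_ | i)
      · rw [hY0, hY0, shift_apply]
        simp only [map_mul, mul_assoc]
      · rw [hY1, hY1, shift_apply]) hrange
  set K := labStab F (fun p => (lX p.1).1 1) with hK
  have hAK : ∀ m ∈ M, ιA m ∈ K := by
    intro m hm
    rintro ⟨⟨x, _ | i⟩, w⟩
    · rw [hF1]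
      simp only [hX0, map_one, one_mul, M.mul_mem_cancel_left hm]
    · rw [hF1]
      simp only [hX1]
  have hBK : ∀ m ∈ M', ιB m ∈ K := by
    intro m hm p
    simp only
    rw [← hθ, ← hθ, hF2]
    obtain ⟨⟨y, _ | i⟩, w⟩ := θ p
    · simp only [hY0, map_one, one_mul, M'.mul_mem_cancel_left hm]
    · simp only [hY1]
  have hK1 : K ≠ ⊤ := by
    intro hK1
    rcases hne with hne | hne
    · apply hne
      rw [eq_top_iff]
      intro a _
      have h1 : ιA a ∈ K := by rw [hK1]; exact Subgroup.mem_top _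
      have h2 := h1 ((1, none), w)
      rw [hF1] at h2
      simp only [hX0, map_one, one_mul, mul_one, M.one_mem, decide_true,
        decide_eq_true_eq] at h2
      exact h2
    · apply hne
      rw [eq_top_iff]
      intro a _
      have h1 : ιB a ∈ K := by rw [hK1]; exact Subgroup.mem_top _
      have h2 := h1 (θ.symm ((1, none), w))
      simp only at h2
      rw [← hθ, ← hθ, hF2, Equiv.apply_symm_apply] at h2
      simp only [hY0, map_one, one_mul, mul_one, M'.one_mem, decide_true,
        decide_eq_true_eq] at h2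
      exact h2
  refine exists_coatom_finset (SA.image ιA ∪ SB.image ιB) K hK1 ?_
  rw [eq_top_iff, ← hP.gen]
  set T := K ⊔ Subgroup.closure ((SA.image ιA ∪ SB.image ιB : Finset P) : Set P) with hT
  apply sup_le
  · rintro _ ⟨a, rfl⟩
    have h1 : M ⊔ Subgroup.closure (SA : Set A) ≤ T.comap ιA := by
      apply sup_le
      · intro m hm
        exact (le_sup_left : K ≤ T) (hAK m hm)
      · rw [Subgroup.closure_le]
        intro a ha
        refine (le_sup_right : _ ≤ T) (Subgroup.subset_closure ?_)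
        rw [Finset.coe_union, Finset.coe_image]
        exact Or.inl ⟨a, ha, rfl⟩
    exact h1 (by rw [hSA]; exact Subgroup.mem_top a)
  · rintro _ ⟨b, rfl⟩
    have h1 : M' ⊔ Subgroup.closure (SB : Set B) ≤ T.comap ιB := by
      apply sup_le
      · intro m hm
        exact (le_sup_left : K ≤ T) (hBK m hm)
      · rw [Subgroup.closure_le]
        intro a ha
        refine (le_sup_right : _ ≤ T) (Subgroup.subset_closure ?_)
        rw [Finset.coe_union, Finset.coe_image, Finset.coe_image]
        exact Or.inr ⟨a, ha, rfl⟩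
    exact h1 (by rw [hSB]; exact Subgroup.mem_top b)

open Classical in
/-- A path of length three which does not fold. -/
theorem partIII (hP : IsAmalg φA φB ιA ιB) (hA : Function.Injective φA)
    (hB : Function.Injective φB) (V : Subgroup A) (V' : Subgroup B) (a : A) (b : B)
    (hVV : ∀ h, φA h ∈ V ↔ φB h ∈ V') (haV : a ∉ V) (hbV : b ∉ V')
    (hV : ∀ h, a * φA h * a⁻¹ ∈ V) (hV' : ∀ h, b * φB h * b⁻¹ ∈ V') :
    ∃ K : Subgroup P, IsCoatom K := by
  -- labels: (function, value of Z' = translate under b, value of Z'' = translate under a)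
  obtain ⟨lX, hX0, hX1⟩ : ∃ lX : A × ULift.{u} (Option Bool) → (H → Bool) × Bool × Bool,
      (∀ x, lX (x, ⟨none⟩) = (fun k => decide (φA k * x ∈ V), false, decide (a * x ∈ V))) ∧
      (∀ x ε, lX (x, ⟨some ε⟩) = (fun _ => false, ε, false)) :=
    ⟨fun p => match p.2.down with
      | none => (fun k => decide (φA k * p.1 ∈ V), false, decide (a * p.1 ∈ V))
      | some ε => (fun _ => false, ε, false), fun x => rfl, fun x i => rfl⟩
  obtain ⟨lY, hY0, hY1⟩ : ∃ lY : B × ULift.{u} (Option Bool) → (H → Bool) × Bool × Bool,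
      (∀ x, lY (x, ⟨none⟩) = (fun k => decide (φB k * x ∈ V'), decide (b * x ∈ V'), false)) ∧
      (∀ x ε, lY (x, ⟨some ε⟩) = (fun _ => false, false, ε)) :=
    ⟨fun p => match p.2.down with
      | none => (fun k => decide (φB k * p.1 ∈ V'), decide (b * p.1 ∈ V'), false)
      | some ε => (fun _ => false, false, ε), fun x => rfl, fun x i => rfl⟩
  have hacV : ∀ c x, a * (φA c * x) ∈ V ↔ a * x ∈ V := by
    intro c x
    have : a * (φA c * x) = (a * φA c * a⁻¹) * (a * x) := by group
    rw [this]
    exact V.mul_mem_cancel_left (hV c)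
  have hbcV : ∀ c x, b * (φB c * x) ∈ V' ↔ b * x ∈ V' := by
    intro c x
    have : b * (φB c * x) = (b * φB c * b⁻¹) * (b * x) := by group
    rw [this]
    exact V'.mul_mem_cancel_left (hV' c)
  have ha1 : ∀ c x, φA c * x ∈ V → a * x ∉ V := by
    intro c x h1 h2
    rw [← hacV c] at h2
    apply haV
    rwa [V.mul_mem_cancel_right h1] at h2
  have hb1 : ∀ c x, φB c * x ∈ V' → b * x ∉ V' := by
    intro c x h1 h2
    rw [← hbcV c] at h2
    apply hbV
    rwa [V'.mul_mem_cancel_right h1] at h2
  have hainv : lX (a⁻¹, ⟨none⟩) = (fun _ => false, false, true) := by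
    rw [hX0]
    have h1 : (fun k => decide (φA k * a⁻¹ ∈ V)) = fun _ => false := by
      funext k
      rw [decide_eq_false_iff_not]
      intro h
      exact ha1 k a⁻¹ h (by rw [mul_inv_cancel]; exact V.one_mem)
    rw [h1, mul_inv_cancel]
    simp
  have hbinv : lY (b⁻¹, ⟨none⟩) = (fun _ => false, true, false) := by
    rw [hY0]
    have h1 : (fun k => decide (φB k * b⁻¹ ∈ V')) = fun _ => false := by
      funext k
      rw [decide_eq_false_iff_not]
      intro h
      exact hb1 k b⁻¹ h (by rw [mul_inv_cancel]; exact V'.one_mem)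
    rw [h1, mul_inv_cancel]
    simp
  have hrange : ∀ l, (∃ x, lX x = l) ↔ ∃ y, lY y = l := by
    intro l
    constructor
    · rintro ⟨⟨x, ⟨_ | ε⟩⟩, rfl⟩
      · by_cases hx : ∃ c, φA c * x ∈ V
        · obtain ⟨c, hc⟩ := hx
          refine ⟨(φB c⁻¹, ⟨none⟩), ?_⟩
          rw [hX0, hY0]
          have e1 : decide (b * φB c⁻¹ ∈ V') = false := by
            rw [decide_eq_false_iff_not]
            apply hb1 c
            rw [← map_mul, mul_inv_cancel, map_one]
            exact V'.one_mem
          have e2 : decide (a * x ∈ V) = false := by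
            rw [decide_eq_false_iff_not]
            exact ha1 c x hc
          rw [e1, e2]
          congr 1
          funext k
          rw [decide_eq_decide, shift_mem_iff φA V hc, ← map_mul, hVV]
        · push Not at hx
          refine ⟨(1, ⟨some (decide (a * x ∈ V))⟩), ?_⟩
          rw [hX0, hY1]
          congr 1
          funext k
          simp [hx k]
      · cases ε
        · exact ⟨(1, ⟨some false⟩), by rw [hX1, hY1]⟩
        · exact ⟨_, hbinv.trans (hX1 _ _).symm⟩
    · rintro ⟨⟨x, ⟨_ | ε⟩⟩, rfl⟩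
      · by_cases hx : ∃ c, φB c * x ∈ V'
        · obtain ⟨c, hc⟩ := hx
          refine ⟨(φA c⁻¹, ⟨none⟩), ?_⟩
          rw [hX0, hY0]
          have e1 : decide (a * φA c⁻¹ ∈ V) = false := by
            rw [decide_eq_false_iff_not]
            apply ha1 c
            rw [← map_mul, mul_inv_cancel, map_one]
            exact V.one_mem
          have e2 : decide (b * x ∈ V') = false := by
            rw [decide_eq_false_iff_not]
            exact hb1 c x hc
          rw [e1, e2]
          congr 1
          funext k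
          rw [decide_eq_decide, shift_mem_iff φB V' hc, ← map_mul, hVV]
        · push Not at hx
          refine ⟨(1, ⟨some (decide (b * x ∈ V'))⟩), ?_⟩
          rw [hY0, hX1]
          congr 1
          funext k
          simp [hx k]
      · cases ε
        · exact ⟨(1, ⟨some false⟩), by rw [hX1, hY1]⟩
        · exact ⟨_, hainv.trans (hY1 _ _).symm⟩
  obtain ⟨W, ⟨w⟩, θ, F, hF1, hF2, hθ⟩ := glue hP hA hB (shift H (Bool × Bool)) lX lY
    (by
      rintro h x ⟨_ | i⟩
      · rw [hX0, hX0, shift_apply]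
        simp only [map_mul, mul_assoc, hacV]
      · rw [hX1, hX1, shift_apply])
    (by
      rintro h x ⟨_ | i⟩
      · rw [hY0, hY0, shift_apply]
        simp only [map_mul, mul_assoc, hbcV]
      · rw [hY1, hY1, shift_apply]) hrange
  have Ra : ∀ p, (lX (F (ιA a) p).1).1 1 = (lX p.1).2.2 := by
    rintro ⟨⟨x, ⟨_ | ε⟩⟩, w⟩ <;> rw [hF1]
    · simp only [hX0, map_one, one_mul]
    · simp only [hX1]
  have Rb : ∀ p, (lX (F (ιB b) p).1).1 1 = (lX p.1).2.1 := by
    intro p
    rw [← hθ, ← hθ, hF2]
    obtain ⟨⟨y, ⟨_ | ε⟩⟩, w⟩ := θ p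
    · simp only [hY0, map_one, one_mul]
    · simp only [hY1]
  have RA : ∀ a' p, (lX (F (ιA a') p).1).2.1 = (lX p.1).2.1 := by
    rintro a' ⟨⟨x, ⟨_ | ε⟩⟩, w⟩ <;> rw [hF1] <;> simp only [hX0, hX1]
  have RB : ∀ b' p, (lX (F (ιB b') p).1).2.2 = (lX p.1).2.2 := by
    intro b' p
    rw [← hθ, ← hθ, hF2]
    obtain ⟨⟨y, ⟨_ | ε⟩⟩, w⟩ := θ p <;> simp only [hY0, hY1]
  have hinv : ∀ q p, F q (F q⁻¹ p) = p := by
    intro q p
    rw [← Equiv.Perm.mul_apply, ← map_mul, mul_inv_cancel, map_one, Equiv.Perm.one_apply]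
  set K := labStab F (fun p => (lX p.1).1 1) with hK
  have hKA : ∀ a', ιB b * ιA a' * (ιB b)⁻¹ ∈ K := by
    intro a' p
    simp only
    rw [map_mul, map_mul, Equiv.Perm.mul_apply, Equiv.Perm.mul_apply, Rb, RA, ← Rb, hinv]
  have hKB : ∀ b', ιA a * ιB b' * (ιA a)⁻¹ ∈ K := by
    intro b' p
    simp only
    rw [map_mul, map_mul, Equiv.Perm.mul_apply, Equiv.Perm.mul_apply, Ra, RB, ← Ra, hinv]
  refine exists_coatom K (ιA a * (ιB b)⁻¹) ?_ ?_
  · intro h
    have h1 := h (F (ιB b) ((a⁻¹, ⟨none⟩), w))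
    simp only at h1
    have h2 : F (ιA a * (ιB b)⁻¹) (F (ιB b) ((a⁻¹, ⟨none⟩), w)) =
        F (ιA a) ((a⁻¹, ⟨none⟩), w) := by
      rw [← Equiv.Perm.mul_apply, ← map_mul]
      congr 2
      group
    rw [h2, Ra, Rb] at h1
    simp only [hainv] at h1
    exact absurd h1 (by decide)
  · intro L hKL hgL
    have hAL : ∀ a', ιA a' ∈ L := by
      intro a'
      have h1 := L.mul_mem (L.mul_mem hgL (hKL (hKA (a⁻¹ * a' * a)))) (L.inv_mem hgL)
      have h2 : ιA a * (ιB b)⁻¹ * (ιB b * ιA (a⁻¹ * a' * a) * (ιB b)⁻¹) *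
          (ιA a * (ιB b)⁻¹)⁻¹ = ιA a' := by
        simp only [map_mul, map_inv]
        group
      rwa [h2] at h1
    rw [eq_top_iff, ← hP.gen]
    apply sup_le
    · rintro _ ⟨a', rfl⟩
      exact hAL a'
    · rintro _ ⟨b', rfl⟩
      have h1 := L.mul_mem (L.mul_mem (L.inv_mem (hAL a)) (hKL (hKB b'))) (hAL a)
      have h2 : (ιA a)⁻¹ * (ιA a * ιB b' * (ιA a)⁻¹) * ιA a = ιB b' := by group
      rwa [h2] at h1

end Pool.Agent.Helper58.Amalg
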