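import Mathlib
import Pool.Agent.Helper58.Amalg.Cases

set_option autoImplicit false

namespace Pool.Agent.Helper58.Amalg

open Cardinal

universe u v

variable {A B H P : Type u} [Group A] [Group B] [Group H] [Group P] {φA : H →* A} {φB : H →* B}
  {ιA : A →* P} {ιB : B →* P}

/-- prescribed points on the side of `A` -/
def sPt (r : Option ((A × Bool) × Fin 3) → A) (u' w : A → Bool → A) :
    Option ((A × Bool) × Bool) × Bool → A × Option (Option A)
  | (none, false) => (r none, none)
  | (none, true) => (r none, some none)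
  | (some ((a, k), false), false) => (r (some ((a, k), 0)), none)
  | (some ((a, k), false), true) => (u' a k, none)
  | (some ((a, k), true), false) => (r (some ((a, k), 0)), some none)
  | (some ((a, k), true), true) => (w a k, some (some a))

/-- prescribed points on the side of `B` -/
def tPt (A : Type u) (b : B) :
    Option ((A × Bool) × Bool) × Bool → B × (Option ((A × Bool) × Bool) ⊕ A)
  | (j, false) => (1, Sum.inl j)
  | (j, true) => (b, Sum.inl j)

theorem sPt_inj (φA : H →* A) (r : Option ((A × Bool) × Fin 3) → A) (u' w : A → Bool → A)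
    (hr : ∀ x y h, φA h * r x = r y → x = y)
    (hu : ∀ a k, ∃ i : Fin 3, i ≠ 0 ∧ u' a k = r (some ((a, k), i)))
    (hw0 : ∀ a, w a false = u' a false) (hw1 : ∀ a, w a true = u' a true * a)
    (hne : ∀ a h, φA h * u' a false ≠ u' a true * a) (d d' : Option ((A × Bool) × Bool) × Bool)
    (h : H) (heq : (φA h * (sPt r u' w d).1, (sPt r u' w d).2) = sPt r u' w d') : d = d' := by
  have hne' : ∀ a h, φA h * (u' a true * a) ≠ u' a false := by
    intro a h h1
    apply hne a h⁻¹
    rw [← h1, map_inv, inv_mul_cancel_left]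
  have e1 := congrArg Prod.fst heq
  have e2 := congrArg Prod.snd heq
  clear heq
  rcases d with ⟨_ | ⟨⟨a, k⟩, _ | _⟩, _ | _⟩ <;>
    rcases d' with ⟨_ | ⟨⟨a', k'⟩, _ | _⟩, _ | _⟩ <;>
    simp only [sPt, reduceCtorEq, Option.some.injEq] at e1 e2
  · rfl
  · have := hr _ _ _ e1
    simp at this
  · exfalso
    obtain ⟨i, hi, hi'⟩ := hu a' k'
    rw [hi'] at e1
    have := hr _ _ _ e1
    simp at this
  · rfl
  · have := hr _ _ _ e1
    simp at this
  · have := hr _ _ _ e1
    simp at this
  · have := hr _ _ _ e1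
    simp only [Option.some.injEq, Prod.mk.injEq] at this
    rw [this.1.1, this.1.2]
  · exfalso
    obtain ⟨i, hi, hi'⟩ := hu a' k'
    rw [hi'] at e1
    have := hr _ _ _ e1
    simp only [Option.some.injEq, Prod.mk.injEq] at this
    exact hi this.2.symm
  · exfalso
    obtain ⟨i, hi, hi'⟩ := hu a k
    rw [hi'] at e1
    have := hr _ _ _ e1
    simp at this
  · exfalso
    obtain ⟨i, hi, hi'⟩ := hu a k
    rw [hi'] at e1
    have := hr _ _ _ e1
    simp only [Option.some.injEq, Prod.mk.injEq] at this
    exact hi this.2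
  · obtain ⟨i, hi, hi'⟩ := hu a k
    obtain ⟨i', hi2, hi2'⟩ := hu a' k'
    rw [hi', hi2'] at e1
    have := hr _ _ _ e1
    simp only [Option.some.injEq, Prod.mk.injEq] at this
    rw [this.1.1, this.1.2]
  · have := hr _ _ _ e1
    simp at this
  · have := hr _ _ _ e1
    simp only [Option.some.injEq, Prod.mk.injEq] at this
    rw [this.1.1, this.1.2]
  · subst e2
    cases k <;> cases k'
    · rfl
    · exfalso
      rw [hw0, hw1] at e1
      exact hne _ _ e1
    · exfalso
      rw [hw0, hw1] at e1
      exact hne' _ _ e1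
    · rfl

omit [Group A] in
theorem tPt_inj (φB : H →* B) (b : B) (hb : b ∉ φB.range)
    (d d' : Option ((A × Bool) × Bool) × Bool) (h : H)
    (heq : (φB h * (tPt A b d).1, (tPt A b d).2) = tPt A b d') : d = d' := by
  have e1 := congrArg Prod.fst heq
  have e2 := congrArg Prod.snd heq
  rcases d with ⟨j, _ | _⟩ <;> rcases d' with ⟨j', _ | _⟩ <;>
    simp only [tPt, Sum.inl.injEq, mul_one] at e1 e2
  · rw [e2]
  · exact absurd ⟨h, e1⟩ hb
  · exfalso
    apply hb
    refine ⟨h⁻¹, ?_⟩
    rw [map_inv, inv_eq_iff_mul_eq_one]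
    exact e1
  · rw [e2]

/-- The amalgamated subgroup is not larger than its index in one of the factors. -/
theorem partI (hP : IsAmalg φA φB ιA ιB) (hA : Function.Injective φA)
    (hB : Function.Injective φB) (hinf : ℵ₀ ≤ #A) (h1 : #A ≤ #(A ⧸ φA.range))
    (h2 : #(B ⧸ φB.range) ≤ #A) (b : B) (hb : b ∉ φB.range) :
    ∃ M : Subgroup P, IsCoatom M := by
  classical
  -- representatives of distinct cosets
  have hcard0 : #(Option ((A × Bool) × Fin 3)) ≤ #(A ⧸ φA.range) := by
    refine le_trans ?_ h1
    rw [Cardinal.mk_option, Cardinal.mk_prod, Cardinal.mk_prod]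
    simp only [Cardinal.lift_uzero, Cardinal.mk_bool, Cardinal.mk_fin,
      Nat.cast_ofNat, Cardinal.lift_ofNat]
    have e1 : #A * 2 = #A := Cardinal.mul_eq_left hinf
      ((Cardinal.natCast_lt_aleph0 (n := 2)).le.trans hinf) two_ne_zero
    have e2 : #A * 3 = #A := Cardinal.mul_eq_left hinf
      ((Cardinal.natCast_lt_aleph0 (n := 3)).le.trans hinf) three_ne_zero
    rw [e1, e2, Cardinal.add_one_eq hinf]
  obtain ⟨j⟩ := hcard0
  let r : Option ((A × Bool) × Fin 3) → A := fun x => ((j x).out)⁻¹
  have hr : ∀ x y h, φA h * r x = r y → x = y := by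
    intro x y h hxy
    apply j.injective
    rw [← Quotient.out_eq' (j x), ← Quotient.out_eq' (j y)]
    rw [Quotient.eq'', QuotientGroup.leftRel_apply]
    refine ⟨h⁻¹, ?_⟩
    change φA h * ((j x).out)⁻¹ = ((j y).out)⁻¹ at hxy
    have h3 : (j y).out = (j x).out * (φA h)⁻¹ := by
      rw [← inv_inv (j y).out, ← hxy, mul_inv_rev, inv_inv]
    change φA h⁻¹ = (j x).out⁻¹ * (j y).out
    rw [h3, map_inv, inv_mul_cancel_left]
  let u' : A → Bool → A := fun a k => if k = true then
    (if ∃ h, φA h * r (some ((a, false), 1)) = r (some ((a, true), 1)) * a then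
      r (some ((a, true), 2)) else r (some ((a, true), 1)))
    else r (some ((a, false), 1))
  let w : A → Bool → A := fun a k => if k = true then u' a true * a else u' a false
  have hu0 : ∀ a, u' a false = r (some ((a, false), 1)) := fun a => rfl
  have hu1 : ∀ a, u' a true = if ∃ h, φA h * r (some ((a, false), 1)) =
      r (some ((a, true), 1)) * a then r (some ((a, true), 2)) else r (some ((a, true), 1)) :=
    fun a => rfl
  have hw0 : ∀ a, w a false = u' a false := fun a => rfl
  have hw1 : ∀ a, w a true = u' a true * a := fun a => rfl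
  have hu : ∀ a k, ∃ i : Fin 3, i ≠ 0 ∧ u' a k = r (some ((a, k), i)) := by
    intro a k
    cases k
    · exact ⟨1, by decide, rfl⟩
    · rw [hu1]
      split_ifs
      · exact ⟨2, by decide, rfl⟩
      · exact ⟨1, by decide, rfl⟩
  have hne : ∀ a h, φA h * u' a false ≠ u' a true * a := by
    intro a h heq
    rw [hu0, hu1] at heq
    split_ifs at heq with hex
    · obtain ⟨k, hk⟩ := hex
      have h3 : φA (k * h⁻¹) * r (some ((a, true), 2)) = r (some ((a, true), 1)) := by
        apply mul_right_cancel (b := a)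
        rw [mul_assoc, ← heq, ← hk, map_mul, map_inv, mul_assoc, inv_mul_cancel_left]
      have h4 := hr _ _ _ h3
      simp at h4
    · exact hex ⟨h, heq⟩
  set s := sPt r u' w with hs
  set t := tPt A b with ht
  set ρ := (lm A (Option (Option A))).comp φA with hρ
  set σ := (lm B (Option ((A × Bool) × Bool) ⊕ A)).comp φB with hσ
  have hsinj : ∀ d d' h, ρ h (s d) = s d' → d = d' := fun d d' h hh =>
    sPt_inj φA r u' w hr hu hw0 hw1 hne d d' h hh
  have htinj : ∀ d d' h, σ h (t d) = t d' → d = d' := fun d d' h hh =>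
    tPt_inj φB b hb d d' h hh
  -- cardinalities
  have cA2 : #A * 2 = #A := Cardinal.mul_eq_left hinf
      ((Cardinal.natCast_lt_aleph0 (n := 2)).le.trans hinf) two_ne_zero
  have cAA : #A * #A = #A := Cardinal.mul_eq_self hinf
  have cEX : #{q : Quotient (orb ρ) // ∀ d, q ≠ Quotient.mk (orb ρ) (s d)} = #A := by
    apply le_antisymm
    · refine ((Cardinal.mk_subtype_le _).trans Cardinal.mk_quotient_le).trans ?_
      rw [Cardinal.mk_prod, Cardinal.lift_id, Cardinal.lift_id, Cardinal.mk_option,
        Cardinal.mk_option, Cardinal.add_one_eq hinf, Cardinal.add_one_eq hinf, cAA]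
    · have hnot : ∀ (a : A) d, Quotient.mk (orb ρ) (r (some ((a, false), 1)), some none) ≠
          Quotient.mk (orb ρ) (s d) := by
        intro a d hd
        rw [orb_eq] at hd
        obtain ⟨h, hh⟩ := hd
        have e1 : φA h * r (some ((a, false), 1)) = (s d).1 := congrArg Prod.fst hh
        have e2 : some none = (s d).2 := congrArg Prod.snd hh
        rcases d with ⟨_ | ⟨⟨a', k'⟩, _ | _⟩, _ | _⟩ <;>
          simp only [hs, sPt, reduceCtorEq, Option.some.injEq] at e1 e2
        · have := hr _ _ _ e1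
          simp at this
        · have := hr _ _ _ e1
          simp at this
      refine Cardinal.mk_le_of_injective (f := fun a : A =>
        (⟨Quotient.mk (orb ρ) (r (some ((a, false), 1)), some none), hnot a⟩ :
          {q : Quotient (orb ρ) // ∀ d, q ≠ Quotient.mk (orb ρ) (s d)})) ?_
      intro a a' haa
      have h3 := congrArg Subtype.val haa
      simp only at h3
      rw [orb_eq] at h3
      obtain ⟨h, hh⟩ := h3
      have h4 := hr _ _ _ (congrArg Prod.fst hh)
      simp only [Option.some.injEq, Prod.mk.injEq] at h4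
      exact h4.1.1
  have cEY : #{q : Quotient (orb σ) // ∀ d, q ≠ Quotient.mk (orb σ) (t d)} = #A := by
    apply le_antisymm
    · refine (Cardinal.mk_subtype_le _).trans ?_
      have h3 : #(Quotient (orb σ)) ≤ #((B ⧸ φB.range) × (Option ((A × Bool) × Bool) ⊕ A)) := by
        refine Cardinal.mk_le_of_injective (f := fun q : Quotient (orb σ) =>
          (((q.out.1⁻¹ : B) : B ⧸ φB.range), q.out.2)) ?_
        intro q q' hqq
        have e1 := congrArg Prod.fst hqq
        have e2 := congrArg Prod.snd hqq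
        simp only at e1 e2
        rw [QuotientGroup.eq] at e1
        obtain ⟨h, hh⟩ := e1
        rw [← Quotient.out_eq q, ← Quotient.out_eq q', orb_eq]
        refine ⟨h⁻¹, ?_⟩
        apply Prod.ext
        · change φB h⁻¹ * q.out.1 = q'.out.1
          rw [map_inv, hh]
          group
        · exact e2
      refine h3.trans ?_
      rw [Cardinal.mk_prod, Cardinal.lift_id, Cardinal.lift_id, Cardinal.mk_sum, Cardinal.lift_id,
        Cardinal.lift_id, Cardinal.mk_option, Cardinal.mk_prod, Cardinal.mk_prod]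
      simp only [Cardinal.lift_uzero, Cardinal.mk_bool, Cardinal.lift_ofNat]
      rw [cA2, cA2, Cardinal.add_one_eq hinf, Cardinal.add_eq_self hinf]
      calc _ ≤ #A * #A := mul_le_mul' h2 le_rfl
        _ = #A := cAA
    · have hnot : ∀ (a : A) d, Quotient.mk (orb σ) (1, Sum.inr a) ≠
          Quotient.mk (orb σ) (t d) := by
        intro a d hd
        rw [orb_eq] at hd
        obtain ⟨h, hh⟩ := hd
        have e2 : Sum.inr a = (t d).2 := congrArg Prod.snd hh
        rcases d with ⟨j, _ | _⟩ <;> simp only [ht, tPt, reduceCtorEq] at e2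
      refine Cardinal.mk_le_of_injective (f := fun a : A =>
        (⟨Quotient.mk (orb σ) (1, Sum.inr a), hnot a⟩ :
          {q : Quotient (orb σ) // ∀ d, q ≠ Quotient.mk (orb σ) (t d)})) ?_
      intro a a' haa
      have h3 := congrArg Subtype.val haa
      simp only at h3
      rw [orb_eq] at h3
      obtain ⟨h, hh⟩ := h3
      have h4 : (Sum.inr a : Option ((A × Bool) × Bool) ⊕ A) = Sum.inr a' :=
        congrArg Prod.snd hh
      exact Sum.inr_injective h4
  obtain ⟨e⟩ := Cardinal.eq.1 (cEX.trans cEY.symm)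
  obtain ⟨θ, hθ1, hθ2⟩ := exists_equiv_extend ρ σ (fun h x hx => lm_free hA h x hx)
    (fun h x hx => lm_free hB h x hx) s t hsinj htinj e
  -- the action
  let g : B →* Equiv.Perm (A × Option (Option A)) :=
    (θ.symm.permCongrHom.toMonoidHom).comp (lm B (Option ((A × Bool) × Bool) ⊕ A))
  have hg : ∀ b p, θ (g b p) = (b * (θ p).1, (θ p).2) := by
    intro b p
    change θ (θ.symm (lm B _ b (θ.symm.symm p))) = _
    rw [Equiv.apply_symm_apply, Equiv.symm_symm]
    rfl
  obtain ⟨F, hF1, hF2⟩ := hP.univ _ (lm A (Option (Option A))) g (by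
    intro h
    apply Equiv.ext
    intro x
    apply θ.injective
    rw [hg]
    exact hθ1 h x)
  have hFA : ∀ a x i, F (ιA a) (x, i) = (a * x, i) := by
    intro a x i
    rw [hF1]
    rfl
  have hFb : ∀ j, F (ιB b) (s (j, false)) = s (j, true) := by
    intro j
    apply θ.injective
    rw [hF2, hg, hθ2, hθ2, ht]
    simp only [tPt, mul_one]
  set x0 : A × Option (Option A) := (1, none) with hx0
  set x1 : A × Option (Option A) := (1, some none) with hx1
  set g0 : P := ιA (r none)⁻¹ * ιB b * ιA (r none) with hg0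
  have hg01 : F g0 x0 = x1 := by
    have e0 : F (ιA (r none)) x0 = (r none, none) := by rw [hx0, hFA, mul_one]
    rw [hg0, map_mul, map_mul, Equiv.Perm.mul_apply, Equiv.Perm.mul_apply, e0]
    have e1 : (r none, none) = s (none, false) := rfl
    have e2 : s (none, true) = (r none, some none) := rfl
    rw [e1, hFb, e2, hFA, inv_mul_cancel]
  let K : Subgroup P :=
    { carrier := {p | F p x0 = x0}
      one_mem' := by simp
      mul_mem' := by
        intro p q hp hq
        change F (p * q) x0 = x0
        rw [map_mul, Equiv.Perm.mul_apply]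
        rw [Set.mem_ofPred_eq] at hp hq
        rw [hq, hp]
      inv_mem' := by
        intro p hp
        rw [Set.mem_ofPred_eq] at hp ⊢
        nth_rewrite 1 [← hp]
        rw [← Equiv.Perm.mul_apply, ← map_mul, inv_mul_cancel, map_one, Equiv.Perm.one_apply] }
  refine exists_coatom K g0 ?_ ?_
  · intro h
    have h3 : F g0 x0 = x0 := h
    rw [hg01, hx0, hx1] at h3
    simp at h3
  · intro L hKL hgL
    let R : (A × Option (Option A)) → P → Prop := fun x p => ∃ q, F q x0 = x ∧ q⁻¹ * p ∈ L
    have r1 : ∀ x p t, R x p → R (F t x) (t * p) := by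
      rintro x p t ⟨q, hq, hqp⟩
      refine ⟨t * q, by rw [map_mul, Equiv.Perm.mul_apply, hq], ?_⟩
      have : (t * q)⁻¹ * (t * p) = q⁻¹ * p := by group
      rw [this]
      exact hqp
    have r2 : ∀ x p p', R x p → R x p' → p⁻¹ * p' ∈ L := by
      rintro x p p' ⟨q, hq, hqp⟩ ⟨q', hq', hqp'⟩
      have h3 : q⁻¹ * q' ∈ L := by
        apply hKL
        change F (q⁻¹ * q') x0 = x0
        rw [map_mul, Equiv.Perm.mul_apply, hq', ← hq, ← Equiv.Perm.mul_apply, ← map_mul,
          inv_mul_cancel, map_one, Equiv.Perm.one_apply]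
      have h4 : p⁻¹ * p' = (q⁻¹ * p)⁻¹ * (q⁻¹ * q') * (q'⁻¹ * p') := by group
      rw [h4]
      exact L.mul_mem (L.mul_mem (L.inv_mem hqp) h3) hqp'
    have r4 : ∀ x p p', R x p → p⁻¹ * p' ∈ L → R x p' := by
      rintro x p p' ⟨q, hq, hqp⟩ h
      refine ⟨q, hq, ?_⟩
      have h4 : q⁻¹ * p' = (q⁻¹ * p) * (p⁻¹ * p') := by group
      rw [h4]
      exact L.mul_mem hqp h
    have q0 : ∀ u, R (u, none) (ιA u) := by
      intro u
      have h3 : R x0 1 := ⟨1, by simp, by simp⟩
      have h4 := r1 _ _ (ιA u) h3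
      rwa [hx0, hFA, mul_one, mul_one] at h4
    have q1 : ∀ u, R (u, some none) (ιA u) := by
      intro u
      have h3 : R x1 1 := ⟨g0, hg01, by rw [mul_one]; exact L.inv_mem hgL⟩
      have h4 := r1 _ _ (ιA u) h3
      rwa [hx1, hFA, mul_one, mul_one] at h4
    have q2 : ∀ a k, (ιA (u' a k))⁻¹ * (ιB b * ιA (r (some ((a, k), 0)))) ∈ L := by
      intro a k
      apply r2 (u' a k, none) _ _ (q0 _)
      have e1 : (r (some ((a, k), 0)), none) = s (some ((a, k), false), false) := rfl
      have e2 : s (some ((a, k), false), true) = (u' a k, none) := rfl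
      rw [← e2, ← hFb, ← e1]
      exact r1 _ _ _ (q0 _)
    have q3 : ∀ a k, R (w a k, some (some a)) (ιA (u' a k)) := by
      intro a k
      have e1 : (r (some ((a, k), 0)), some none) = s (some ((a, k), true), false) := rfl
      have e2 : s (some ((a, k), true), true) = (w a k, some (some a)) := rfl
      refine r4 _ (ιB b * ιA (r (some ((a, k), 0)))) _ ?_ ?_
      · rw [← e2, ← hFb, ← e1]
        exact r1 _ _ _ (q1 _)
      · have h3 := L.inv_mem (q2 a k)
        rwa [mul_inv_rev, inv_inv] at h3
    have q4 : ∀ a k, R (1, some (some a)) (ιA ((w a k)⁻¹ * u' a k)) := by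
      intro a k
      have h3 := r1 _ _ (ιA (w a k)⁻¹) (q3 a k)
      rwa [hFA, inv_mul_cancel, ← map_mul] at h3
    have hAL : ∀ a, ιA a ∈ L := by
      intro a
      have h3 := q4 a false
      have h4 := q4 a true
      rw [hw0, inv_mul_cancel] at h3
      rw [hw1, mul_inv_rev, mul_assoc, inv_mul_cancel, mul_one] at h4
      have h5 := r2 _ _ _ h3 h4
      rw [map_one, inv_one, one_mul, map_inv] at h5
      exact (L.inv_mem_iff).1 h5
    have q5 : ∀ i, R (1, i) 1 := by
      rintro (_ | _ | a)
      · have := q0 1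
        rwa [map_one] at this
      · have := q1 1
        rwa [map_one] at this
      · have := q4 a false
        rwa [hw0, inv_mul_cancel, map_one] at this
    rw [eq_top_iff, ← hP.gen]
    apply sup_le
    · rintro _ ⟨a, rfl⟩
      exact hAL a
    · rintro _ ⟨b', rfl⟩
      obtain ⟨v, i⟩ : ∃ v i, F (ιB b') x0 = (v, i) := ⟨_, _, rfl⟩
      obtain ⟨i, hi⟩ := i
      have h3 : R (v, i) (ιB b') := ⟨ιB b', hi, by rw [inv_mul_cancel]; exact L.one_mem⟩
      have h4 : R (v, i) (ιA v) := by
        have h5 := r1 _ _ (ιA v) (q5 i)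
        rwa [hFA, mul_one, mul_one] at h5
      have h6 := r2 _ _ _ h4 h3
      have h7 := L.mul_mem (hAL v) h6
      rwa [mul_inv_cancel_left] at h7

end Pool.Agent.Helper58.Amalg
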