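import Mathlib
import Pool.Agent.Helper58.Amalg.Large

set_option autoImplicit false

namespace Pool.Agent.Helper58.Amalg

open Cardinal

universe u

section Pushout

variable {G : Bool → Type u} [∀ i, Group (G i)] {H : Type u} [Group H] (φ : ∀ i, H →* G i)

theorem isAmalg_push :
    IsAmalg (φ true) (φ false) (Monoid.PushoutI.of (φ := φ) true)
      (Monoid.PushoutI.of (φ := φ) false) where
  gen := by
    rw [eq_top_iff]
    intro x _
    induction x using Monoid.PushoutI.induction_on with
    | of i g =>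
      cases i
      · exact Subgroup.mem_sup_right ⟨g, rfl⟩
      · exact Subgroup.mem_sup_left ⟨g, rfl⟩
    | base h =>
      rw [← Monoid.PushoutI.of_apply_eq_base φ true]
      exact Subgroup.mem_sup_left ⟨_, rfl⟩
    | mul x y hx hy => exact Subgroup.mul_mem _ (hx trivial) (hy trivial)
  comm h := by
    rw [Monoid.PushoutI.of_apply_eq_base, Monoid.PushoutI.of_apply_eq_base]
  univ X f g hfg := by
    let F : ∀ i, G i →* Equiv.Perm X := fun i => match i with
      | true => f
      | false => g
    have hF : ∀ i, (F i).comp (φ i) = g.comp (φ false) := by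
      intro i
      cases i
      · rfl
      · ext1 h
        exact hfg h
    refine ⟨Monoid.PushoutI.lift F (g.comp (φ false)) hF, ?_, ?_⟩
    · intro a
      rw [Monoid.PushoutI.lift_of]
    · intro b
      rw [Monoid.PushoutI.lift_of]

end Pushout

theorem exists_coatom_of_surjective {P Q : Type u} [Group P] [Group Q] (π : P →* Q)
    (hπ : Function.Surjective π) (h : ∃ M : Subgroup Q, IsCoatom M) :
    ∃ M : Subgroup P, IsCoatom M := by
  obtain ⟨M, hM⟩ := h
  refine ⟨M.comap π, ?_, ?_⟩
  · intro h1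
    apply hM.1
    rw [← Subgroup.map_comap_eq_self_of_surjective hπ M, h1, ← MonoidHom.range_eq_map,
      MonoidHom.range_eq_top]
    exact hπ
  · intro L hL
    have h1 : M < L.map π := by
      refine lt_of_le_of_ne ?_ ?_
      · rw [← Subgroup.map_comap_eq_self_of_surjective hπ M]
        exact Subgroup.map_mono hL.le
      · intro h2
        apply hL.ne
        apply le_antisymm hL.le
        rw [h2]
        exact Subgroup.le_comap_map _ _
    have h2 := hM.2 _ h1
    have h3 : π.ker ≤ L := by
      refine le_trans ?_ hL.le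
      intro x hx
      rw [MonoidHom.mem_ker] at hx
      rw [Subgroup.mem_comap, hx]
      exact M.one_mem
    rw [← Subgroup.comap_map_eq_self h3, h2, Subgroup.comap_top]

section Quot

variable {A H : Type u} [Group A] [Group H] (φ : H →* A) (N : Subgroup H) [N.Normal]
  [hN : (N.map φ).Normal]

/-- induced map on quotients -/
def qmap : H ⧸ N →* A ⧸ N.map φ := QuotientGroup.map N (N.map φ) φ (Subgroup.le_comap_map _ _)

theorem qmap_mk (h : H) : qmap φ N (h : H ⧸ N) = (φ h : A ⧸ N.map φ) := rfl

theorem qmap_inj (hφ : Function.Injective φ) : Function.Injective (qmap φ N) := by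
  rw [injective_iff_map_eq_one]
  intro x
  induction x using QuotientGroup.induction_on with
  | H h =>
    intro h1
    rw [qmap_mk, QuotientGroup.eq_one_iff] at h1
    obtain ⟨k, hk, hkh⟩ := h1
    rw [QuotientGroup.eq_one_iff, ← hφ hkh]
    exact hk

theorem mk_mem_range_qmap (a : A) : (a : A ⧸ N.map φ) ∈ (qmap φ N).range ↔ a ∈ φ.range := by
  constructor
  · rintro ⟨x, hx⟩
    induction x using QuotientGroup.induction_on with
    | H h =>
      rw [qmap_mk, QuotientGroup.eq] at hx
      obtain ⟨k, hk, hkh⟩ := hx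
      refine ⟨h * k, ?_⟩
      rw [map_mul, hkh, mul_inv_cancel_left]
  · rintro ⟨h, rfl⟩
    exact ⟨(h : H ⧸ N), rfl⟩

theorem card_quot : #((A ⧸ N.map φ) ⧸ (qmap φ N).range) = #(A ⧸ φ.range) := by
  symm
  have key : ∀ a a' : A, (((a : A ⧸ N.map φ) : (A ⧸ N.map φ) ⧸ (qmap φ N).range) =
      ((a' : A ⧸ N.map φ) : (A ⧸ N.map φ) ⧸ (qmap φ N).range)) ↔
      ((a : A ⧸ φ.range) = (a' : A ⧸ φ.range)) := by
    intro a a'
    rw [QuotientGroup.eq, QuotientGroup.eq, ← QuotientGroup.mk_inv, ← QuotientGroup.mk_mul,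
      mk_mem_range_qmap]
  refine Cardinal.mk_congr (Equiv.ofBijective (fun q : A ⧸ φ.range =>
    (((q.out : A) : A ⧸ N.map φ) : (A ⧸ N.map φ) ⧸ (qmap φ N).range)) ⟨?_, ?_⟩)
  · intro q q' h
    simp only at h
    rw [key] at h
    rw [← Quotient.out_eq' q, ← Quotient.out_eq' q']
    exact h
  · intro x
    induction x using QuotientGroup.induction_on with
    | H y =>
      induction y using QuotientGroup.induction_on with
      | H a =>
        refine ⟨(a : A ⧸ φ.range), ?_⟩
        simp only
        rw [key]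
        exact Quotient.out_eq' _

theorem card_group_le (φ' : H →* A) (κ : Cardinal.{u}) (hκ : ℵ₀ ≤ κ) (h1 : #(A ⧸ φ'.range) ≤ κ)
    (h2 : #H ≤ κ) : #A ≤ κ := by
  rw [Cardinal.mk_congr (Subgroup.groupEquivQuotientProdSubgroup (s := φ'.range)),
    Cardinal.mk_prod, Cardinal.lift_id, Cardinal.lift_id]
  calc _ ≤ κ * κ := mul_le_mul' h1 ((Cardinal.mk_le_of_surjective
        φ'.rangeRestrict_surjective).trans h2)
    _ = κ := Cardinal.mul_eq_self hκ

end Quot

/-- case I modulo a normal subgroup -/
theorem partI_core {A B H P : Type u} [Group A] [Group B] [Group H] [Group P] {φA : H →* A}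
    {φB : H →* B} {ιA : A →* P} {ιB : B →* P} (hP : IsAmalg φA φB ιA ιB)
    (hA : Function.Injective φA) (hB : Function.Injective φB) (hBs : ¬ Function.Surjective φB)
    (N : Subgroup H) (hNA : (N.map φA).Normal) (hNB : (N.map φB).Normal)
    (hinf : ℵ₀ ≤ #(A ⧸ φA.range)) (h1 : #(H ⧸ N) ≤ #(A ⧸ φA.range))
    (h2 : #(B ⧸ φB.range) ≤ #(A ⧸ φA.range)) : ∃ M : Subgroup P, IsCoatom M := by
  classical
  have hN : N.Normal := by
    have h3 : (N.map φA).comap φA = N := Subgroup.comap_map_eq_self_of_injective hA N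
    rw [← h3]
    exact Subgroup.Normal.comap hNA φA
  -- the normal subgroup of `P`
  let R : Subgroup P := Subgroup.normalClosure (ιA '' (N.map φA : Set A))
  let π : P →* P ⧸ R := QuotientGroup.mk' R
  have hRA : ∀ a ∈ N.map φA, π (ιA a) = 1 := by
    intro a ha
    rw [QuotientGroup.mk'_apply, QuotientGroup.eq_one_iff]
    exact Subgroup.subset_normalClosure ⟨a, ha, rfl⟩
  have hRB : ∀ b ∈ N.map φB, π (ιB b) = 1 := by
    rintro _ ⟨h, hh, rfl⟩
    rw [← hP.comm]
    exact hRA _ ⟨h, hh, rfl⟩
  let ιA' : A ⧸ N.map φA →* P ⧸ R := QuotientGroup.lift _ (π.comp ιA) hRA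
  let ιB' : B ⧸ N.map φB →* P ⧸ R := QuotientGroup.lift _ (π.comp ιB) hRB
  have hιA' : ∀ a : A, ιA' (a : A ⧸ N.map φA) = π (ιA a) := fun a => rfl
  have hιB' : ∀ b : B, ιB' (b : B ⧸ N.map φB) = π (ιB b) := fun a => rfl
  have hP' : IsAmalg (qmap φA N) (qmap φB N) ιA' ιB' := by
    refine ⟨?_, ?_, ?_⟩
    · rw [eq_top_iff]
      intro x _
      obtain ⟨p, rfl⟩ := QuotientGroup.mk'_surjective R x
      have h3 : p ∈ (ιA'.range ⊔ ιB'.range).comap π := by
        have h4 : ιA.range ⊔ ιB.range ≤ (ιA'.range ⊔ ιB'.range).comap π := by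
          apply sup_le
          · rintro _ ⟨a, rfl⟩
            exact Subgroup.mem_sup_left ⟨(a : A ⧸ N.map φA), rfl⟩
          · rintro _ ⟨a, rfl⟩
            exact Subgroup.mem_sup_right ⟨(a : B ⧸ N.map φB), rfl⟩
        exact h4 (by rw [hP.gen]; exact Subgroup.mem_top p)
      exact h3
    · intro x
      induction x using QuotientGroup.induction_on with
      | H h => rw [qmap_mk, qmap_mk, hιA', hιB', hP.comm]
    · intro X f g hfg
      obtain ⟨F, hF1, hF2⟩ := hP.univ X (f.comp (QuotientGroup.mk' _))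
        (g.comp (QuotientGroup.mk' _)) (fun h => hfg (h : H ⧸ N))
      have hker : ∀ p ∈ R, F p = 1 := by
        have h3 : R ≤ F.ker := by
          apply Subgroup.normalClosure_le_normal
          rintro _ ⟨a, ha, rfl⟩
          rw [SetLike.mem_coe, MonoidHom.mem_ker, hF1, MonoidHom.comp_apply,
            QuotientGroup.mk'_apply, (QuotientGroup.eq_one_iff a).2 ha, map_one]
        exact fun p hp => h3 hp
      refine ⟨QuotientGroup.lift R F hker, ?_, ?_⟩
      · intro x
        induction x using QuotientGroup.induction_on with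
        | H a => exact hF1 a
      · intro x
        induction x using QuotientGroup.induction_on with
        | H a => exact hF2 a
  obtain ⟨b, hb⟩ : ∃ b, b ∉ φB.range := by
    by_contra hcon
    push Not at hcon
    exact hBs hcon
  have c1 := card_quot φA N
  have c2 := card_quot φB N
  have hA' : #(A ⧸ N.map φA) ≤ #(A ⧸ φA.range) :=
    card_group_le (qmap φA N) _ hinf c1.le h1
  have hA'' : #(A ⧸ φA.range) ≤ #(A ⧸ N.map φA) := by
    rw [← c1]
    exact Cardinal.mk_quotient_le
  exact exists_coatom_of_surjective π (QuotientGroup.mk'_surjective R)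
    (partI hP' (qmap_inj φA N hA) (qmap_inj φB N hB) (hinf.trans hA'')
      (by rw [c1]; exact hA') (by rw [c2]; exact h2.trans hA'') (b : B ⧸ N.map φB)
      (by rw [mk_mem_range_qmap]; exact hb))

/-- finite index of the amalgamated subgroup in one factor -/
theorem part_fin {A B H P : Type u} [Group A] [Group B] [Group H] [Group P] {φA : H →* A}
    {φB : H →* B} {ιA : A →* P} {ιB : B →* P} (hP : IsAmalg φA φB ιA ιB)
    (hA : Function.Injective φA) (hB : Function.Injective φB) (hAs : ¬ Function.Surjective φA)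
    (hfin : Finite (A ⧸ φA.range)) : ∃ M : Subgroup P, IsCoatom M := by
  classical
  have hfi := Fintype.ofFinite (A ⧸ φA.range)
  refine partII hP hA hB φA.range ⊤ (by intro h; simp) (Or.inl ?_)
    (Finset.univ.image (fun q : A ⧸ φA.range => q.out)) ?_ ∅ (by simp)
  · intro h
    rw [MonoidHom.range_eq_top] at h
    exact hAs h
  · rw [eq_top_iff]
    intro a _
    have h1 : ((Quotient.mk'' a : A ⧸ φA.range).out)⁻¹ * a ∈ φA.range := by
      rw [← QuotientGroup.eq]
      exact Quotient.out_eq' _
    have h2 : a = (Quotient.mk'' a : A ⧸ φA.range).out *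
      (((Quotient.mk'' a : A ⧸ φA.range).out)⁻¹ * a) := by group
    rw [h2]
    refine Subgroup.mul_mem _ (Subgroup.mem_sup_right (Subgroup.subset_closure ?_))
      (Subgroup.mem_sup_left h1)
    rw [Finset.coe_image]
    exact ⟨_, Finset.mem_coe.2 (Finset.mem_univ _), rfl⟩

end Pool.Agent.Helper58.Amalg
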